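import Pool.Agent.TH677.GA.Final
import Pool.Agent.TH677.GA.Exist

/-!
# Graph Automorphism has a zero-error reduction to the KT-random strings

The definitions of the machines with random access to a description, of KT complexity, of the
oracle `R_KT` and of the problem Graph Automorphism are in `Pool.Agent.TH677.GA.Defs`; the class
`ZPP` relative to an oracle is `Pool.Agent.H620R2.Gauge.IsZPP`. Universal machines exist by
`Pool.Agent.TH677.GA.exists_universal`.

The proof. (1) Let `e` be a structure on `m` elements. Take `b` random arrangements of the
elements, write down the structure in these orders, and hash the result, by a linear hash function
`h`, to a string that is one bit longer than what is needed to describe `b` of `m! / 2`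
possibilities; do this `q` times with the same `h`. Call `X` the string made of `h` and of the `q`
hash values. If `e` has an automorphism that moves an element `u` to `v`, then every arrangement can
be rotated along the cycle of `u`, without changing the written structure, such that `u` comes
before `v`; hence the blocks have descriptions which are one bit shorter than the hash values, and
`X` is never KT-random if `q` is large enough. If `e` is rigid, the leftover hash lemma shows that
`X` is almost uniformly distributed, and at least half of the strings of its length are KT-random;
so `X` is KT-random with probability at least `1/4`. (2) Let `G` be a graph with the vertices
`0, ..., n - 1`, and let `U(i, j, a, b)` be the union of two copies of `G` in which `0, ..., i - 1`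
are marked in the same way, `i` in the first copy has the same mark as `j` in the second copy and
`a` in the first copy has the same mark as `b` in the second copy. If `G` is rigid, these
structures are rigid for `i ≠ j`. If `G` is not rigid, one of them with `i ≠ j` is not, and for a
suitable `i` and some `j` there is an automorphism `σ` of `G` such that `U(i, j, a, b)` is rigid if
and only if `b ≠ σ(a)`. So the algorithm says that `G` is rigid if all these structures with
`i ≠ j` are certified to be rigid by a KT-random string `X`, and otherwise looks for an automorphism
obtained in this way. All questions are asked at once.
-/

set_option autoImplicit false

namespace Pool.Agent.Results.MP_8416b9_lc.GraphAutZPP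

open Pool.Agent.TH677.GA Pool.Agent.H620R2.Gauge

/-- Graph Automorphism is in `ZPP` relative to the set `R_KT` of the KT-random strings, for every
universal machine with random access to a description. -/
theorem result (U : Machine) (hU : U.Universal) : IsZPP U.RKT GraphAut :=
  graphAut_isZPP U hU

end Pool.Agent.Results.MP_8416b9_lc.GraphAutZPP
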